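import Pool.Agent.Lib.MP_a785f2_an.UN.Geo

/-! The continuity theorem for a submanifold and a Lipschitz form, internal version. -/

open MeasureTheory Metric Set Filter Topology
open scoped ContDiff RealInnerProductSpace ENNReal

namespace Pool.Agent.Lib.MP_a785f2_an.UN

open HS (V)
open LZ OM

variable {n m M : ℕ} {L : ℝ}

/-- The form `T` projected onto the tangent spaces. -/
theorem anti_proj {T : V m → Bi m} (a : Anti T L) {P : V m → Op m} (b : BL P)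
    (sy : ∀ q x y, ⟪P q x, y⟫ = ⟪x, P q y⟫) : ∃ (T' : V m → Bi m) (L' : ℝ), Anti T' L' ∧
      ∀ q x y, T' q x y = P q (T q x (P q y)) := by
  have bT : BL T := ⟨L, a.L1, a.bd, a.lip⟩
  have b1 := BL.comp (X := V m) (Y := V m →L[ℝ] V m) (Z := V m →L[ℝ] V m)
    (BL.clm (X := V m →L[ℝ] V m) (Y := (V m →L[ℝ] V m) →L[ℝ] V m →L[ℝ] V m)
      (ContinuousLinearMap.compL ℝ (V m) (V m) (V m)).flip b) bT
  obtain ⟨K, K1, k1, k2⟩ := BL.comp (X := V m) (Y := V m →L[ℝ] V m) (Z := V m →L[ℝ] V m)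
    (BL.clm (X := V m →L[ℝ] V m) (Y := (V m →L[ℝ] V m) →L[ℝ] V m →L[ℝ] V m)
      (ContinuousLinearMap.compL ℝ (V m) (V m) (V m)) b) b1
  refine ⟨_, K, ⟨K1, k1, k2, fun q x y => ?_⟩, fun _ _ _ => rfl⟩
  change ⟪P q (T q x (P q y)), y⟫ = 0
  rw [sy, a.anti]

theorem core_loc (hn : 3 ≤ n) {N : Set (V m)} {γ : V m → V M} {τ : V m → V m →L[ℝ] V M}
    {σ : V m → V m →L[ℝ] V m →L[ℝ] V M} {B : ℝ} {P : V m → Op m} {Q : V M → Op M}
    (t : Imm γ τ σ B) (d : Tgt N γ τ σ P Q) {p0 : V m} (hp0 : p0 ∈ N) {T : V m → Bi m}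
    (a : Anti T L) {O : Set (HS.D n)}
    {u : HS.D n → V m} {A : HS.D n → HS.D n →L[ℝ] V m} {F : HS.D n → V m} (s : NH.GSol O u A F)
    (h : ∀ᵐ x, x ∈ O → u x ∈ N ∧ ‖P (u x) (F x - quadT (T (u x)) (A x))‖ ≤ L * HS.jac (A x))
    {x0 : HS.D n} {R : ℝ} (hK : closedBall x0 R ⊆ O) : NH.Rep (ball x0 R) u := by
  have n2 : 2 ≤ n := by omega
  have := sph_prob (n := n) (by omega)
  have : Nonempty (Fin n) := ⟨⟨0, by omega⟩⟩
  obtain ⟨T1, L1', a1', e1'⟩ := anti_proj a d.bl d.sy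
  obtain ⟨T', L', a', e'⟩ := t.form a1'
  obtain ⟨C, C1, hC⟩ := exists_slice hn m
  have s1 := t.lift n2 s hK
  have hO : ball x0 R ⊆ O := ball_subset_closedBall.trans hK
  have s0 : NH.GSol (ball x0 R) u A F := ⟨isOpen_ball, s.mu, s.mG, s.mF, s.lu, s.lG, s.lF,
    fun φ p1 p2 p3 => s.wk φ p1 p2 (p3.trans hO), fun φ p1 p2 p3 => s.eq φ p1 p2 (p3.trans hO)⟩
  obtain ⟨ι, _, k, Φ, hΦ, hT⟩ := d.eqs
  have hG : ∀ᵐ x, x ∈ ball x0 R → ∀ v, P (u x) (A x v) = A x v := by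
    have h3 := ae_all_iff.2 fun i => s1.chain n2 (hΦ i).1 (hΦ i).2.1
      (h.mono fun x hx hxΩ => (hΦ i).2.2 _ (hx (hO hxΩ)).1)
    filter_upwards [h, h3] with x k1 k2 hx v
    exact hT _ (k1 (hO hx)).1 _ fun i => k2 i hx v
  have hnp := LY.normal_part n2 s1 d.c1 d.cs d.sQ (by
    filter_upwards [h, hG] with x k1 k2 hx v
    rw [ContinuousLinearMap.comp_apply, d.t1 _ (k1 (hO hx)).1, k2 hx])
  obtain ⟨D0, D00, bN, ch⟩ := d.bd
  obtain ⟨D1, D10, hD1⟩ := HS.tr_bdd d.c1.continuous d.cs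
  obtain ⟨D2, D20, hD2⟩ := NH.bdd_fderiv d.c1 d.cs
  have L0 : 0 ≤ L := zero_le_one.trans a.L1
  have L1 := a'.L1
  obtain ⟨K, hK'⟩ : ∃ K : ℝ, K = L * ((m : ℝ) ^ n * n.factorial * 2 ^ n) := ⟨_, rfl⟩
  have K0 : 0 ≤ K := by rw [hK']; positivity
  have p0' : 0 ≤ L' ^ 2 * C := by positivity
  obtain ⟨Λ, hΛ⟩ : ∃ Λ : ℝ, Λ = 1 + D0 + D1 + D2 + 2 * L' + K + L' ^ 2 * C := ⟨_, rfl⟩
  have g0 : Geo Q (1 + D1 + D2) :=
    ⟨by linarith, d.c1, fun q => by linarith [hD1 q], fun q => by linarith [hD2 q], d.sQ⟩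
  have g : Geo Q Λ :=
    ⟨by linarith, d.c1, fun q => by linarith [hD1 q], fun q => by linarith [hD2 q], d.sQ⟩
  have z1 : ∀ θ : E n, (ten (0 : V M) θ : W n M) = 0 := fun θ => by
    ext1 α; simp [ten]
  have key : ∀ q ∈ γ '' N, ∀ (p : W n M) (φ : V M), (∀ α, Q q (p α) = p α) →
      Q q (al Q q p) = 0 → (∀ (b : V M) (θ : E n), ‖θ‖ = 1 →
        ‖φ - al Q q p‖ ≤ K * (‖b‖ ^ (n - 2) * ‖p - ten b θ‖ ^ 2 + ‖p - ten b θ‖ ^ n)) →
      ‖φ‖ ≤ (K + (1 + D1 + D2)) * ‖p‖ ^ n ∧ PtM Q Λ (γ '' N) q p φ := fun q hq p φ j1 j2 k => by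
    refine ⟨?_, hq, j1, j2, fun b θ hθ => ?_⟩
    · have k1 := k 0 (EuclideanSpace.single ⟨0, by omega⟩ 1) (by simp)
      rw [norm_zero, zero_pow (by omega), zero_mul, zero_add, z1, sub_zero] at k1
      rw [add_mul]
      exact (norm_le_norm_sub_add φ (al Q q p)).trans (add_le_add k1 (g0.al_le n2 q p))
    · exact (k b θ hθ).trans (mul_le_mul_of_nonneg_right (by linarith) (by positivity))
  have pt : ∀ (q : V m) (A : HS.D n →L[ℝ] V m) (F : V m), q ∈ N →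
      ‖P q (F - quadT (T q) A)‖ ≤ L * HS.jac A → (∀ v, P q (A v) = A v) →
      τ q F - quadT (σ q) A - Q (γ q) (τ q F - quadT (σ q) A) = LY.sec Q (γ q) ((τ q).comp A) →
      ∀ r : ℝ, 0 < r → ‖-(r ^ n • (τ q F - quadT (σ q) A)) - tor (T' q) (r • cols ((τ q).comp A))‖ ≤
        (K + (1 + D1 + D2)) * ‖r • cols ((τ q).comp A)‖ ^ n ∧
        PtM Q Λ (γ '' N) (γ q) (r • cols ((τ q).comp A))
          (-(r ^ n • (τ q F - quadT (σ q) A)) - tor (T' q) (r • cols ((τ q).comp A))) := by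
    intro q A F hq j1 j2 j3 r hr
    have c1 : Q (γ q) (quadT (σ q) A) = quadT (σ q) A := by
      simp only [quadT, map_smul, map_sum, d.t2 q hq]
    have c2 : Q (γ q) (τ q F - quadT (σ q) A) = τ q (P q F) - quadT (σ q) A := by
      rw [map_sub, c1, d.t1 q hq]
    have c3 : quadT (T1 q) A = P q (quadT (T q) A) := by
      simp only [quadT, map_smul, map_sum, e1', HS.col, j2]
    have c4 : al Q (γ q) (r • cols ((τ q).comp A)) = r ^ n • (τ q (P q F) - τ q F) := by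
      rw [al_smul n2 hr.le, al_cols, ← j3, c2]
      congr 1
      abel
    refine key _ (mem_image_of_mem γ hq) _ _ (fun α => ?_) ?_ fun b θ hθ => ?_
    · rw [PiLp.smul_apply, map_smul]
      congr 1
      exact (d.t1 q hq _).trans (congrArg _ (j2 _))
    · rw [c4, map_smul, map_sub, d.t1 q hq, d.t1 q hq, (d.pr q hq).2, sub_self, smul_zero]
    · have c5 : ‖P q F - quadT (T1 q) A‖ ≤ L * HS.jac A := by rwa [c3, ← map_sub]
      refine le_trans (le_of_eq (congrArg norm ?_))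
        (hK' ▸ rem_le (t.iso q) hn L0 (e' q) c5 hr b hθ)
      rw [c4, smul_sub, smul_sub, smul_sub]
      abel
  obtain ⟨v, G, f, Y, mY, a1, a2, a3, a4⟩ := dat_gen hn g (q0 := γ p0)
    ((bN p0 hp0).trans (by linarith)) s1
    (K := fun x => ‖γ (u x)‖ ≤ D0 ∧ ∀ r : ℝ, 0 < r → _)
    (by
      filter_upwards [h, hG, hnp] with x k1 k2 k3 hx
      exact ⟨bN _ (k1 (hO hx)).1, pt _ _ _ (k1 (hO hx)).1 (k1 (hO hx)).2 (k2 hx) (k3 hx)⟩)
    fun x hx => by
      refine ⟨hx.1.trans (by linarith), ?_⟩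
      have k1 := (hx.2 1 one_pos).1
      have k2 := (tor_le n2 (T' (u x)) (cols ((τ (u x)).comp (A x)))).trans
        (mul_le_mul_of_nonneg_right (a'.bd _) (by positivity))
      rw [one_pow, one_smul, one_smul] at k1
      have k3 := norm_le_norm_sub_add (-(τ (u x) (F x) - quadT (σ (u x)) (A x)))
        (tor (T' (u x)) (cols ((τ (u x)).comp (A x))))
      rw [norm_neg] at k3
      refine (k3.trans (add_le_add k1 k2)).trans ?_
      rw [← add_mul]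
      exact mul_le_mul_of_nonneg_right (by linarith) (by positivity)
  have aeY : ∀ᵐ x, eD n x ∈ ball x0 R → x ∈ Y := eD_mp.quasiMeasurePreserving.ae a1
  have b0 := aux_of n2 s0 mY aeY
  have b1 := aux_of n2 s1 mY aeY
  have eG : (Y.indicator fun x => cols ((τ (u (eD n x))).comp (A (eD n x)))) = G :=
    funext fun x => by
      by_cases k : x ∈ Y
      · rw [indicator_of_mem k]; exact (a2 x k).2.2.1.symm
      · rw [indicator_of_notMem k]; exact (a3 x k).2.1.symm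
  rw [eG] at b1
  have hH : ∀ x, ‖Y.indicator (fun x => cols (A (eD n x))) x‖ ≤ ‖G x‖ ∧
      ∀ w, ‖rad (Y.indicator (fun x => cols (A (eD n x))) x) w‖ = ‖rad (G x) w‖ := fun x => by
    rw [← eG]
    by_cases k : x ∈ Y
    · rw [indicator_of_mem k, indicator_of_mem k]
      exact ⟨(norm_cols_iso (t.iso _) _).ge, fun w => (norm_rad_iso (t.iso _) _ w).symm⟩
    · rw [indicator_of_notMem k, indicator_of_notMem k]
      exact ⟨by simp, fun w => by simp [rad]⟩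
  have cT : Continuous T' := (LipschitzWith.of_dist_le' (K := L') fun q q' => by
    rw [dist_eq_norm (T' q), dist_eq_norm q]; exact a'.lip q q').continuous
  refine rep_of (b0.rep (a4 (RlT Q Λ (γ '' N)) (sphOK_T hn g ?_)
    fun c r hr => ?_) fun x => (hH x).1) isOpen_ball (ae_of_all _ fun _ _ => rfl)
  · rintro _ ⟨q, hq, rfl⟩ _ ⟨q', hq', rfl⟩ ν k
    refine (ch q hq q' hq' ν k).trans ?_
    gcongr
    linarith
  filter_upwards [hC _ _ _ b0 c r hr, LY.ae_slice_integrable volume c b1.iH] with ρ k1 k2 hρ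
  obtain ⟨U, hU⟩ : ∃ U : S n → V m, U = sl (fun x => u (eD n x)) c ρ := ⟨_, rfl⟩
  have mU : StronglyMeasurable U := hU ▸ sl_meas b0.mU c ρ
  obtain ⟨k3, k4⟩ := k1 hρ
  rw [← hU] at k3 k4
  refine ⟨fun θ => T' (U θ), T' (sy U), fun θ => min Λ (L' * ‖U θ - sy U‖),
    cT.comp_stronglyMeasurable mU, (measurable_const.min (((mU.sub
      stronglyMeasurable_const).norm.measurable).const_mul L')).stronglyMeasurable,
    fun θ => ⟨(a'.bd _).trans (by linarith), a'.anti _, le_min ?_ (a'.lip _ _), min_le_left _ _,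
      ?_⟩, fun b => ?_⟩
  · have := norm_sub_le (T' (U θ)) (T' (sy U))
    linarith [a'.bd (U θ), a'.bd (sy U)]
  · have k5 : ‖ph f c ρ θ - tor (T' (U θ)) (pp G c ρ θ)‖ ≤
        (K + (1 + D1 + D2)) * ‖pp G c ρ θ‖ ^ n ∧ PtM Q Λ (γ '' N) (sl v c ρ θ) (pp G c ρ θ)
          (ph f c ρ θ - tor (T' (U θ)) (pp G c ρ θ)) := by
      by_cases hx : c + ρ • (θ : E n) ∈ Y
      · obtain ⟨c1, c2, c3, c4⟩ := a2 _ hx
        simp only [hU, sl, pp, ph, c2, c3, c4]
        exact c1.2 ρ hρ.1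
      · obtain ⟨c2, c3, c4⟩ := a3 _ hx
        have z : al Q (γ p0) (0 : W n M) = 0 := by simp [al]
        simp only [sl, pp, ph, c2, c3, c4, smul_zero, neg_zero]
        refine key _ (mem_image_of_mem γ hp0) _ _ (fun α => by simp) (by rw [z, map_zero])
          fun b θ' _ => ?_
        simp only [z, tor, PiLp.zero_apply, map_zero, Finset.sum_const_zero, sub_zero, smul_zero,
          norm_zero]
        positivity
    exact ⟨k5.1.trans (mul_le_mul_of_nonneg_right (by linarith) (by positivity)), k5.2⟩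
  · have i0 : Integrable (fun θ => ‖pp G c ρ θ‖ ^ n) (sph n) := by
      simp only [pp, norm_smul, mul_pow]
      exact (int_sph (by omega) (k2 hρ.1)).const_mul _
    have i2 := slc_int n2 (pp_meas b1.mH c ρ) i0 b
    obtain ⟨D, hD⟩ : ∃ D : S n → ℝ, ∀ θ, ‖pp G c ρ θ - ten b θ‖ = D θ := ⟨_, fun _ => rfl⟩
    simp only [hD] at i2 ⊢
    have k5 := k4 D (fun θ => hD θ ▸ norm_nonneg _) i2 fun θ w hw => by
      rw [← hD]
      refine le_trans (le_of_eq ?_) (slc_tang (pp G c ρ θ) b hw)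
      rw [pp, pp, rad_smul, rad_smul, norm_smul, norm_smul, (hH _).2]
    have d0 : 0 ≤ ∫ θ, D θ ^ 2 ∂sph n := integral_nonneg fun _ => sq_nonneg _
    calc _ ≤ ∫ θ, L' ^ 2 * ‖U θ - sy U‖ ^ 2 ∂sph n := by
          refine integral_mono_of_nonneg (ae_of_all _ fun _ => sq_nonneg _) (k3.const_mul _)
            (ae_of_all _ fun θ => ?_)
          beta_reduce
          rw [← mul_pow]
          exact pow_le_pow_left₀ (le_min (by linarith) (by positivity)) (min_le_right _ _) 2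
      _ ≤ L' ^ 2 * (C * ∫ θ, D θ ^ 2 ∂sph n) := by
          rw [integral_const_mul]; gcongr
      _ ≤ _ := by rw [← mul_assoc]; gcongr; linarith

theorem core (hn : 3 ≤ n) {N : Set (V m)} (hN : IsC2Submanifold N) (Z : Submodule ℝ (V m))
    (hZ : ∀ p ∈ N, ∀ v ∈ Z, p + v ∈ N) (hc : IsCompact (N ∩ Zᗮ)) {T : V m → Bi m} (a : Anti T L)
    (O : Set (HS.D n)) (u : HS.D n → V m) (A : HS.D n → HS.D n →L[ℝ] V m) (F : HS.D n → V m)
    (s : NH.GSol O u A F) (h : ∀ᵐ x, x ∈ O → u x ∈ N ∧ ∀ e ∈ tangentConeAt ℝ N (u x),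
      |⟪F x - quadT (T (u x)) (A x), e⟫| ≤ L * HS.jac (A x) * ‖e‖) : NH.Rep O u := by
  rcases N.eq_empty_or_nonempty with rfl | ⟨p0, hp0⟩
  · refine ⟨fun _ => 0, continuousOn_const, (ae_restrict_iff' s.op.measurableSet).2 ?_⟩
    filter_upwards [h] with x hx hO
    exact absurd (hx hO).1 (notMem_empty _)
  obtain ⟨M, γ, τ, σ, B, P, Q, t, d⟩ := exists_tgt hN Z hZ hc
  have h' : ∀ᵐ x, x ∈ O → u x ∈ N ∧
      ‖P (u x) (F x - quadT (T (u x)) (A x))‖ ≤ L * HS.jac (A x) := by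
    filter_upwards [h] with x k hx
    obtain ⟨k1, k2⟩ := k hx
    refine ⟨k1, ?_⟩
    obtain ⟨y, hy⟩ : ∃ y, F x - quadT (T (u x)) (A x) = y := ⟨_, rfl⟩
    rw [hy] at k2 ⊢
    have e3 := k2 _ ((d.pr _ k1).1 y)
    have e4 : ⟪y, P (u x) y⟫ = ‖P (u x) y‖ ^ 2 := by
      rw [← real_inner_self_eq_norm_sq, d.sy, (d.pr _ k1).2]
    rw [e4, abs_of_nonneg (sq_nonneg _), sq] at e3
    rcases (norm_nonneg (P (u x) y)).eq_or_lt with h0 | h0
    · rw [← h0]
      exact mul_nonneg (zero_le_one.trans a.L1) (Finset.sum_nonneg fun _ _ => abs_nonneg _)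
    · exact le_of_mul_le_mul_right e3 h0
  obtain ⟨v, h1, h2⟩ := LY.rep_osc (ν := volume) (Ω := O) (u := u) fun x0 hx γ hγ => by
    obtain ⟨R, hR, hK⟩ := nhds_basis_closedBall.mem_iff.1 (s.op.mem_nhds hx)
    obtain ⟨w, k1, k2⟩ := core_loc hn t d hp0 a s h' hK
    obtain ⟨r, hr, k3⟩ := Metric.continuousAt_iff.1
      (k1.continuousAt (ball_mem_nhds x0 hR)) γ hγ
    refine ⟨min r R, lt_min hr hR, w x0, ?_⟩
    filter_upwards [(ae_restrict_iff' measurableSet_ball).1 k2] with x k4 k5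
    rw [k4 (ball_subset_ball (min_le_right _ _) k5), ← dist_eq_norm]
    exact (k3 (ball_subset_ball (min_le_left _ _) k5)).le
  exact ⟨v, h1, (ae_restrict_iff' s.op.measurableSet).2 h2⟩

end Pool.Agent.Lib.MP_a785f2_an.UN
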