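import Pool.Agent.Lib.MP_a785f2_an.LY.H3

/-! Equations and chords along a compact part of a `C^2` submanifold. -/

open MeasureTheory Metric Set Filter Topology
open scoped ContDiff RealInnerProductSpace ENNReal

namespace Pool.Agent.Lib.MP_a785f2_an.UN

open HS NH

variable {m : ℕ}

/-- Finitely many global functions that vanish on `N` and cut out the tangent spaces along `K`. -/
theorem exists_eqs {N K : Set (V m)} (hc : IsCompact K) (hK : K ⊆ N) (hN : IsC2Submanifold N) :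
    ∃ (ι : Type) (_ : Finite ι) (k : ι → ℕ) (Φ : ∀ i, V m → V (k i)),
      (∀ i, ContDiff ℝ 1 (Φ i) ∧ HasCompactSupport (Φ i) ∧ ∀ q ∈ N, Φ i q = 0) ∧
      ∀ q ∈ K, ∀ v, (∀ i, fderiv ℝ (Φ i) q v = 0) → v ∈ tangentConeAt ℝ N q := by
  classical
  choose k U Φ hU hp hΦ hs hz using hN
  have hr : ∀ p (h : p ∈ N), ∃ r > 0, closedBall p (2 * r) ⊆ U p h := by
    intro p h
    obtain ⟨r, hr, hb⟩ := Metric.nhds_basis_closedBall.mem_iff.1 ((hU p h).mem_nhds (hp p h))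
    refine ⟨r / 2, by positivity, ?_⟩
    rwa [show 2 * (r / 2) = r by ring]
  choose r hr0 hrU using hr
  obtain ⟨t, ht⟩ := hc.elim_finite_subcover (fun p : N => ball (p : V m) (r p p.2))
    (fun p => isOpen_ball)
    (fun q hq => mem_iUnion.2 ⟨⟨q, hK hq⟩, mem_ball_self (hr0 q (hK hq))⟩)
  let χ : ∀ p : N, ContDiffBump (p : V m) := fun p =>
    ⟨r p p.2, 2 * r p p.2, hr0 p p.2, by linarith [hr0 p p.2]⟩
  have hts : ∀ p : N, tsupport (χ p) ⊆ U p p.2 := fun p => by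
    rw [(χ p).tsupport_eq]; exact hrU p p.2
  refine ⟨t, inferInstance, fun i => k i.1 i.1.2, fun i x => χ i.1 x • Φ i.1 i.1.2 x, ?_, ?_⟩
  · intro i
    refine ⟨?_, ?_, ?_⟩
    · rw [contDiff_iff_contDiffAt]
      intro x
      by_cases hx : x ∈ U i.1 i.1.2
      · exact (χ i.1).contDiff.contDiffAt.smul
          (((hΦ i.1 i.1.2).contDiffAt ((hU i.1 i.1.2).mem_nhds hx)).of_le (by norm_num))
      · have hx' : x ∉ tsupport (χ i.1) := fun h => hx (hts i.1 h)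
        have h0 := notMem_tsupport_iff_eventuallyEq.1 hx'
        refine (contDiffAt_const (c := (0 : V (k i.1 i.1.2)))).congr_of_eventuallyEq ?_
        filter_upwards [h0] with y hy
        simp [hy]
    · exact (χ i.1).hasCompactSupport.smul_right
    · intro q hq
      by_cases hx : q ∈ U i.1 i.1.2
      · have h0 : Φ i.1 i.1.2 q = 0 := (hz i.1 i.1.2 q hx).1 hq
        simp [h0]
      · have hx' : q ∉ tsupport (χ i.1) := fun h => hx (hts i.1 h)
        have h0 : χ i.1 q = 0 := image_eq_zero_of_notMem_tsupport hx'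
        simp [h0]
  · intro q hq v hv
    obtain ⟨p, hpt, hqp⟩ := mem_iUnion₂.1 (ht hq)
    have hqU : q ∈ U p p.2 := by
      apply hrU p p.2
      have := hr0 p p.2
      exact closedBall_subset_closedBall (by linarith) (ball_subset_closedBall hqp)
    have he : (fun x => χ p x • Φ p p.2 x) =ᶠ[𝓝 q] Φ p p.2 := by
      filter_upwards [isOpen_ball.mem_nhds hqp] with y hy
      have h1 : χ p y = 1 := (χ p).one_of_mem_closedBall (ball_subset_closedBall hy)
      simp [h1]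
    have h2 := hv ⟨p, hpt⟩
    simp only at h2
    rw [he.fderiv_eq] at h2
    exact (cone_eq (hU p p.2) (hΦ p p.2) (hs p p.2) (hz p p.2) hqU (hK hq) v).2 h2

/-- A normal vector at `q` sees a chord from `q` only at second order. -/
theorem chord {N K : Set (V m)} (hc : IsCompact K) (hK : K ⊆ N) (hN : IsC2Submanifold N) :
    ∃ C : ℝ, 0 ≤ C ∧ ∀ q ∈ K, ∀ q' ∈ K, ∀ ν : V m,
      (∀ τ ∈ tangentConeAt ℝ N q, ⟪ν, τ⟫ = 0) → |⟪ν, q' - q⟫| ≤ C * ‖ν‖ * ‖q' - q‖ ^ 2 := by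
  set R : ℝ → V m × V m → Prop := fun C z => z.1 ∈ N → z.2 ∈ N → ∀ ν : V m,
    (∀ τ ∈ tangentConeAt ℝ N z.1, ⟪ν, τ⟫ = 0) →
      |⟪ν, z.2 - z.1⟫| ≤ C * ‖ν‖ * ‖z.2 - z.1‖ ^ 2 with hR
  have mono : ∀ {C C' : ℝ} {z}, C ≤ C' → R C z → R C' z := fun h h1 a b ν hν =>
    (h1 a b ν hν).trans (by gcongr)
  have key : ∃ C : ℝ, ∀ z ∈ K ×ˢ K, R C z := by
    refine (hc.prod hc).induction_on (p := fun s => ∃ C : ℝ, ∀ z ∈ s, R C z)
      ⟨0, fun z hz => hz.elim⟩ (fun s t hst ⟨C, hC⟩ => ⟨C, fun z hz => hC z (hst hz)⟩)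
      (fun s t ⟨C, hC⟩ ⟨C', hC'⟩ => ⟨max C C', fun z hz => hz.elim
        (fun h => mono (le_max_left _ _) (hC z h)) fun h => mono (le_max_right _ _) (hC' z h)⟩)
      fun z hz => ?_
    by_cases h : z.1 = z.2
    · obtain ⟨r, hr, C, hC⟩ := LY.chord_loc hN (hK hz.1)
      refine ⟨ball z.1 r ×ˢ ball z.1 r, mem_nhdsWithin_of_mem_nhds
        (prod_mem_nhds (ball_mem_nhds _ hr) (h ▸ ball_mem_nhds _ hr)), C, fun y hy a b => ?_⟩
      exact hC _ hy.1 _ hy.2 a b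
    · have h0 : 0 < ‖z.2 - z.1‖ := norm_pos_iff.2 (sub_ne_zero.2 (Ne.symm h))
      have c1 : Continuous fun y : V m × V m => ‖y.2 - y.1‖ :=
        (continuous_snd.sub continuous_fst).norm
      refine ⟨{y | ‖z.2 - z.1‖ / 2 < ‖y.2 - y.1‖}, mem_nhdsWithin_of_mem_nhds
        ((isOpen_lt continuous_const c1).mem_nhds (half_lt_self h0)), (‖z.2 - z.1‖ / 2)⁻¹,
        fun y hy _ _ ν _ => (abs_real_inner_le_norm _ _).trans ?_⟩
      have h1 : 1 ≤ (‖z.2 - z.1‖ / 2)⁻¹ * ‖y.2 - y.1‖ := by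
        rw [← div_eq_inv_mul]
        exact (one_le_div (half_pos h0)).2 (le_of_lt hy)
      calc ‖ν‖ * ‖y.2 - y.1‖ = ‖ν‖ * ‖y.2 - y.1‖ * 1 := (mul_one _).symm
        _ ≤ ‖ν‖ * ‖y.2 - y.1‖ * ((‖z.2 - z.1‖ / 2)⁻¹ * ‖y.2 - y.1‖) := by gcongr
        _ = _ := by ring
  obtain ⟨C, hC⟩ := key
  exact ⟨max C 0, le_max_right _ _, fun q hq q' hq' =>
    mono (le_max_left _ _) (hC (q, q') ⟨hq, hq'⟩) (hK hq) (hK hq')⟩

/-- Translations that preserve `N` preserve its tangent cones. -/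
theorem cone_shift {N : Set (V m)} {v q a : V m} (h : ∀ p ∈ N, p + v ∈ N)
    (ha : a ∈ tangentConeAt ℝ N q) : a ∈ tangentConeAt ℝ N (q + v) := by
  have d : HasFDerivWithinAt (fun p : V m => p + v) (ContinuousLinearMap.id ℝ (V m)) N q :=
    ((hasFDerivAt_id q).add_const v).hasFDerivWithinAt
  exact tangentConeAt_mono (image_subset_iff.2 h) (d.mapsTo_tangent_cone ha)

theorem cone_dir {N : Set (V m)} {Z : Submodule ℝ (V m)} (h : ∀ p ∈ N, ∀ v ∈ Z, p + v ∈ N)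
    {q v : V m} (hq : q ∈ N) (hv : v ∈ Z) : v ∈ tangentConeAt ℝ N q := by
  have := mem_tangentConeAt_of_segment_subset (x := q) (y := q + v) (s := N) fun p hp => by
    rw [segment_eq_image'] at hp
    obtain ⟨t, -, rfl⟩ := hp
    exact h q hq _ (Z.smul_mem t (by rwa [add_sub_cancel_left]))
  rwa [add_sub_cancel_left] at this

theorem exists_inj (m k : ℕ) : ∃ (i : V m →L[ℝ] V (m + k)) (j : V k →L[ℝ] V (m + k)),
    (∀ a b, ⟪i a, i b⟫ = ⟪a, b⟫) ∧ (∀ a b, ⟪j a, j b⟫ = ⟪a, b⟫) ∧ ∀ a b, ⟪i a, j b⟫ = 0 := by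
  refine ⟨LinearMap.toContinuousLinearMap
    { toFun := fun a => WithLp.toLp 2 (Fin.append a.ofLp fun _ : Fin k => 0)
      map_add' := fun a b => ?_
      map_smul' := fun c a => ?_ }, LinearMap.toContinuousLinearMap
    { toFun := fun b => WithLp.toLp 2 (Fin.append (fun _ : Fin m => 0) b.ofLp)
      map_add' := fun a b => ?_
      map_smul' := fun c a => ?_ }, fun a b => ?_, fun a b => ?_, fun a b => ?_⟩
  · ext l; refine Fin.addCases (fun l => ?_) (fun l => ?_) l <;> simp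
  · ext l; refine Fin.addCases (fun l => ?_) (fun l => ?_) l <;> simp
  · ext l; refine Fin.addCases (fun l => ?_) (fun l => ?_) l <;> simp
  · ext l; refine Fin.addCases (fun l => ?_) (fun l => ?_) l <;> simp
  · simp [PiLp.inner_apply, Fin.sum_univ_add]
  · simp [PiLp.inner_apply, Fin.sum_univ_add]
  · simp [PiLp.inner_apply, Fin.sum_univ_add]

end Pool.Agent.Lib.MP_a785f2_an.UN
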