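import Pool.Agent.Lib.MP_a785f2_an.UN.Lift
import Pool.Agent.Lib.MP_a785f2_an.UN.Man
import Pool.Agent.Lib.MP_a785f2_an.OM.Core

/-! The lift of a submanifold that is compact up to translations by a subspace. -/

open MeasureTheory Metric Set Filter Topology
open scoped ContDiff RealInnerProductSpace ENNReal

namespace Pool.Agent.Lib.MP_a785f2_an.UN

open HS NH OM

variable {m M : ℕ}

/-- The tangent projections `P` of `N` and their counterpart `Q` along the lift of `N`. -/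
structure Tgt (N : Set (V m)) (γ : V m → V M) (τ : V m → V m →L[ℝ] V M)
    (σ : V m → V m →L[ℝ] V m →L[ℝ] V M) (P : V m → V m →L[ℝ] V m) (Q : V M → V M →L[ℝ] V M) :
    Prop where
  bl : BL P
  sy : ∀ q a b, ⟪P q a, b⟫ = ⟪a, P q b⟫
  pr : ∀ q ∈ N, (∀ a, P q a ∈ tangentConeAt ℝ N q) ∧ ∀ a, P q (P q a) = P q a
  c1 : ContDiff ℝ 1 Q
  cs : HasCompactSupport Q
  sQ : ∀ z a b, ⟪Q z a, b⟫ = ⟪a, Q z b⟫
  t1 : ∀ q ∈ N, ∀ a, Q (γ q) (τ q a) = τ q (P q a)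
  t2 : ∀ q ∈ N, ∀ a b, Q (γ q) (σ q a b) = σ q a b
  bd : ∃ C : ℝ, 0 ≤ C ∧ (∀ q ∈ N, ‖γ q‖ ≤ C) ∧ ∀ q ∈ N, ∀ q' ∈ N, ∀ ν, Q (γ q) ν = 0 →
    |⟪ν, γ q' - γ q⟫| ≤ C * ‖ν‖ * ‖γ q' - γ q‖ ^ 2
  eqs : ∃ (ι : Type) (_ : Finite ι) (k : ι → ℕ) (Φ : ∀ i, V M → V (k i)),
    (∀ i, ContDiff ℝ 1 (Φ i) ∧ HasCompactSupport (Φ i) ∧ ∀ q ∈ N, Φ i (γ q) = 0) ∧
    ∀ q ∈ N, ∀ a, (∀ i, fderiv ℝ (Φ i) (γ q) (τ q a) = 0) → P q a = a

theorem BL.precomp {Y : Type} [NormedAddCommGroup Y] {f : V m → Y} (h : BL f)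
    {p : V m →L[ℝ] V m} (hp : ∀ a, ‖p a‖ ≤ ‖a‖) : BL fun q => f (p q) := by
  obtain ⟨K, K1, k1, k2⟩ := h
  refine ⟨K, K1, fun q => k1 _, fun q q' => (k2 _ _).trans ?_⟩
  rw [← map_sub]
  exact mul_le_mul_of_nonneg_left (hp _) (by linarith)

/-- The immersion that keeps the part orthogonal to `Z` and rolls up the part in `Z`. -/
theorem exists_imm (Z : Submodule ℝ (V m)) : ∃ (M : ℕ) (γ : V m → V M) (τ : V m → V m →L[ℝ] V M)
    (σ : V m → V m →L[ℝ] V m →L[ℝ] V M) (B : ℝ) (i : V m →L[ℝ] V M), Imm γ τ σ B ∧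
    (∀ a, ‖i a‖ = ‖a‖) ∧ (∀ q, ‖γ q - i (Zᗮ.starProjection q)‖ ≤ B) ∧
    (∀ q a, ⟪i a, γ q⟫ = ⟪a, Zᗮ.starProjection q⟫) ∧ (∀ q a b c, ⟪i a, σ q b c⟫ = 0) ∧
    (∀ q a b, ⟪i a, τ q b⟫ = ⟪a, Zᗮ.starProjection b⟫) ∧
    ∀ q, ∀ a ∈ Zᗮ, τ q a = i a := by
  obtain ⟨γ, τ, σ, B, t⟩ := exists_torus m
  obtain ⟨i, j, ii, jj, ij⟩ := exists_inj m (m + m)
  set p := Z.starProjection with hp
  set p' := Zᗮ.starProjection with hp'
  have ni : ∀ a, ‖i a‖ = ‖a‖ := fun a => by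
    rw [norm_eq_sqrt_real_inner, ii, ← norm_eq_sqrt_real_inner]
  have nj : ∀ a, ‖j a‖ = ‖a‖ := fun a => by
    rw [norm_eq_sqrt_real_inner, jj, ← norm_eq_sqrt_real_inner]
  have ji : ∀ a b, ⟪j b, i a⟫ = 0 := fun a b => by rw [real_inner_comm, ij]
  let Ψ : (V m →L[ℝ] V (m + m)) →L[ℝ] V m →L[ℝ] V (m + (m + m)) :=
    (ContinuousLinearMap.compL ℝ (V m) (V (m + m)) (V (m + (m + m))) j).comp
      ((ContinuousLinearMap.compL ℝ (V m) (V m) (V (m + m))).flip p)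
  have b0 : BL fun q => σ (p q) :=
    BL.precomp ⟨B, t.B1, t.bσ, t.lσ⟩ Z.norm_starProjection_apply_le
  obtain ⟨K, K1, k1, k2⟩ := BL.comp (X := V m) (Y := V m →L[ℝ] V (m + m))
    (Z := V m →L[ℝ] V (m + (m + m))) (BL.const Ψ)
    (BL.comp (X := V m) (Y := V m) (Z := V m →L[ℝ] V (m + m)) b0 (BL.const p))
  have B1 := t.B1
  have hb : ∀ q, ‖i (p' q) + j (γ (p q)) - i (p' q)‖ ≤ B + K := fun q => by
    rw [add_sub_cancel_left, nj]
    linarith [t.bγ (p q)]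
  have eτ : ∀ q a, (i.comp p' + Ψ (τ (p q))) a = i (p' a) + j (τ (p q) (p a)) := fun _ _ => rfl
  have eσ : ∀ q a b, Ψ.comp ((σ (p q)).comp p) a b = j (σ (p q) (p a) (p b)) := fun _ _ _ => rfl
  refine ⟨m + (m + m), fun q => i (p' q) + j (γ (p q)), fun q => i.comp p' + Ψ (τ (p q)),
    fun q => Ψ.comp ((σ (p q)).comp p), B + K, i, ⟨by linarith, by simp [t.z], fun q => ?_,
      fun q => ?_, ⟨i.comp p', hb⟩, fun q e => ?_, fun q => (k1 q).trans (by linarith),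
      fun q q' => (k2 q q').trans (mul_le_mul_of_nonneg_right (by linarith) (norm_nonneg _)),
      fun q a b c => ?_⟩, ni, hb, fun q a => ?_, fun q a b c => ?_, fun q a b => ?_,
      fun q a ha => ?_⟩
  · exact (i.comp p').hasFDerivAt.add
      (j.hasFDerivAt.comp q ((t.d1 (p q)).comp q p.hasFDerivAt))
  · exact (Ψ.hasFDerivAt.comp q ((t.d2 (p q)).comp q p.hasFDerivAt)).const_add _
  · refine (sq_eq_sq₀ (norm_nonneg _) (norm_nonneg _)).1 ?_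
    rw [eτ, norm_add_sq_real, ij, ni, nj, t.iso, Submodule.norm_sq_eq_add_norm_sq_starProjection e Z]
    ring
  · rw [eσ, eτ, inner_add_right, ji, jj, t.nor, add_zero]
  · rw [inner_add_right, ii, ij, add_zero]
  · rw [eσ, ij]
  · rw [eτ, inner_add_right, ii, ij, add_zero]
  · have h1 : p' a = a := Submodule.starProjection_eq_self_iff.2 ha
    have h2 : p a = 0 := by
      have := Z.starProjection_add_starProjection_orthogonal a
      rwa [← hp, ← hp', h1, add_eq_right] at this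
    rw [eτ, h1, h2, map_zero, map_zero, add_zero]

theorem exists_cut (M : ℕ) {R : ℝ} (hR : 0 ≤ R) : ∃ χ : V M → ℝ, ContDiff ℝ 1 χ ∧
    HasCompactSupport χ ∧ ∀ y, ‖y‖ ≤ R → ∀ᶠ z in 𝓝 y, χ z = 1 := by
  have h1 : 0 < R + 1 := by linarith
  have h2 : R + 1 < R + 2 := by linarith
  let χ : ContDiffBump (0 : V M) := ⟨R + 1, R + 2, h1, h2⟩
  refine ⟨χ, χ.contDiff, χ.hasCompactSupport, fun y hy => ?_⟩
  filter_upwards [isOpen_ball.mem_nhds (mem_ball_zero_iff.2 (hy.trans_lt (lt_add_one _)))]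
    with z hz using χ.one_of_mem_closedBall (ball_subset_closedBall hz)

theorem exists_tgt {N : Set (V m)} (hN : IsC2Submanifold N) (Z : Submodule ℝ (V m))
    (hZ : ∀ p ∈ N, ∀ v ∈ Z, p + v ∈ N) (hc : IsCompact (N ∩ Zᗮ)) :
    ∃ (M : ℕ) (γ : V m → V M) (τ : V m → V m →L[ℝ] V M) (σ : V m → V m →L[ℝ] V m →L[ℝ] V M)
      (B : ℝ) (P : V m → V m →L[ℝ] V m) (Q : V M → V M →L[ℝ] V M),
      Imm γ τ σ B ∧ Tgt N γ τ σ P Q := by
  obtain ⟨M, γ, τ, σ, B, i, t, ni, hb, iγ, iσ, iτ, τi⟩ := exists_imm Z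
  obtain ⟨P, h1, h2, hs, hP⟩ := exists_proj_of_local hc (fun q => tangentConeAt ℝ N q)
    fun p hp => by
      obtain ⟨k, U, Φ, hU, hpU, hΦ, hs, h⟩ := hN p hp.1
      exact ⟨k, U, Φ, hU, hpU, hΦ, hs, fun q hq hqN v => cone_eq hU hΦ hs h hq hqN.1 v⟩
  obtain ⟨ι, fι, k, Φ, hΦ, hT⟩ := exists_eqs hc inter_subset_left hN
  obtain ⟨C, C0, hC⟩ := chord hc inter_subset_left hN
  obtain ⟨L1, L10, hL1⟩ := tr_bdd h1.continuous h2
  obtain ⟨L2, L20, hL2⟩ := bdd_fderiv h1 h2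
  obtain ⟨L3, hL3⟩ := hc.isBounded.exists_norm_le
  set p := Z.starProjection with hp
  set p' := Zᗮ.starProjection with hp'
  set j : V M →L[ℝ] V m := ContinuousLinearMap.adjoint i with hj
  have pp : ∀ a, p a + p' a = a := Z.starProjection_add_starProjection_orthogonal
  have e' : ∀ q, q + -p q = p' q := fun q => by
    rw [← sub_eq_add_neg, sub_eq_iff_eq_add', pp]
  have mK : ∀ q ∈ N, p' q ∈ N ∩ Zᗮ := fun q hq =>
    ⟨e' q ▸ hZ q hq _ (Z.neg_mem (Z.starProjection_apply_mem q)), Zᗮ.starProjection_apply_mem q⟩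
  have jγ : ∀ q, j (γ q) = p' q := fun q => ext_inner_left ℝ fun a => by
    rw [hj, ContinuousLinearMap.adjoint_inner_right, iγ]
  have jτ : ∀ q a, j (τ q a) = p' a := fun q b => ext_inner_left ℝ fun a => by
    rw [hj, ContinuousLinearMap.adjoint_inner_right, iτ]
  have jσ : ∀ q a b, j (σ q a b) = 0 := fun q b c => ext_inner_left ℝ fun a => by
    rw [hj, ContinuousLinearMap.adjoint_inner_right, iσ, inner_zero_right]
  have ji : ∀ a, j (i a) = a := adj_iso ni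
  have Pp : ∀ q ∈ N, ∀ a, P (p' q) (p a) = p a := fun q hq a =>
    (hP _ (mK q hq)).2 _ (cone_dir hZ (mK q hq).1 (Z.starProjection_apply_mem a))
  have Po : ∀ q ∈ N, ∀ a, P (p' q) (p' a) ∈ Zᗮ := fun q hq a => (Z.mem_orthogonal _).2 fun v hv => by
    rw [← hs, (hP _ (mK q hq)).2 _ (cone_dir hZ (mK q hq).1 hv)]
    exact (Z.mem_orthogonal _).1 (Zᗮ.starProjection_apply_mem a) v hv
  have B1 := t.B1
  have a3 := le_abs_self L3
  have a4 := abs_nonneg L3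
  have bγ : ∀ q ∈ N, ‖γ q‖ ≤ B + |L3| := fun q hq => by
    have := norm_le_norm_sub_add (γ q) (i (p' q))
    rw [ni] at this
    linarith [hb q, hL3 _ (mK q hq)]
  obtain ⟨χ, cχ, sχ, oχ⟩ := exists_cut M (show 0 ≤ B + |L3| by linarith)
  have χ1 : ∀ q ∈ N, ∀ᶠ z in 𝓝 (γ q), χ z = 1 := fun q hq => oχ _ (bγ q hq)
  obtain ⟨Q0, hQ⟩ : ∃ Q : V M → V M →L[ℝ] V M, Q = fun z =>
    i.comp ((P (j z)).comp j) + (ContinuousLinearMap.id ℝ (V M) - i.comp j) := ⟨_, rfl⟩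
  have cQ0 : ContDiff ℝ 1 Q0 := by
    rw [hQ]
    exact (contDiff_const.clm_comp ((h1.comp j.contDiff).clm_comp contDiff_const)).add
      contDiff_const
  have cut : ∀ {Y : Type} [NormedAddCommGroup Y] [NormedSpace ℝ Y] (f : V M → Y),
      HasCompactSupport fun z => χ z • f z := fun f => sχ.smul_right
  have sQ := cut Q0
  have cQ : ContDiff ℝ 1 fun z => χ z • Q0 z := cχ.smul cQ0
  obtain ⟨Q, hQ'⟩ : ∃ Q : V M → V M →L[ℝ] V M, (fun z => χ z • Q0 z) = Q := ⟨_, rfl⟩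
  have eQ : ∀ z a, Q z a = χ z • (i (P (j z) (j a)) + (a - i (j a))) := fun _ _ => by
    rw [← hQ', hQ]; rfl
  rw [hQ'] at sQ cQ
  have cΦ : ∀ l, ContDiff ℝ 1 fun z => χ z • Φ l (j z) := fun l =>
    cχ.smul ((hΦ l).1.comp j.contDiff)
  have eN : ∀ q ∈ N, ∀ a, Q (γ q) a = i (P (p' q) (j a)) + (a - i (j a)) := fun q hq a => by
    rw [eQ, (χ1 q hq).self_of_nhds, one_smul, jγ]
  have sj : ∀ a b, ⟪i a, b⟫ = ⟪a, j b⟫ := fun a b => by
    rw [hj, ContinuousLinearMap.adjoint_inner_right]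
  have sj' : ∀ a b, ⟪b, i a⟫ = ⟪j b, a⟫ := fun a b => by
    rw [hj, ContinuousLinearMap.adjoint_inner_left]
  refine ⟨M, γ, τ, σ, B, fun q => P (p' q), Q, t, ?_, fun q => hs _, fun q hq => ⟨fun a => ?_,
    fun a => (hP _ (mK q hq)).2 _ ((hP _ (mK q hq)).1 a)⟩, cQ, sQ,
    fun z a b => ?_, fun q hq a => ?_, fun q hq a b => ?_,
    ⟨B + |L3| + C, by linarith, fun q hq => by linarith [bγ q hq], fun q hq q' hq' ν hν => ?_⟩,
    ι, fι, k, fun l z => χ z • Φ l (j z), fun l => ⟨cΦ l, cut _, fun q hq => ?_⟩,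
      fun q hq a ha => ?_⟩
  · refine BL.precomp ⟨1 + L1 + L2, by linarith, fun q => by linarith [hL1 q], fun q q' => ?_⟩
      Zᗮ.norm_starProjection_apply_le
    exact (convex_univ.norm_image_sub_le_of_norm_fderiv_le (𝕜 := ℝ)
      (fun x _ => h1.differentiable one_ne_zero x) (fun x _ => hL2 x) (mem_univ q')
      (mem_univ q)).trans (mul_le_mul_of_nonneg_right (by linarith) (norm_nonneg _))
  · have := cone_shift (fun y hy => hZ y hy _ (Z.starProjection_apply_mem q))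
      ((hP _ (mK q hq)).1 a)
    rwa [add_comm, ← hp, pp] at this
  · rw [eQ, eQ, real_inner_smul_left, real_inner_smul_right, inner_add_left, inner_add_right,
      inner_sub_left, inner_sub_right, sj, sj, sj', sj', hs]
  · rw [eN q hq, jτ, ← τi q _ (Po q hq a), ← τi q _ (Zᗮ.starProjection_apply_mem a), ← map_sub,
      ← map_add]
    congr 1
    conv_rhs => rw [← pp a, map_add, Pp q hq]
    rw [← hp', add_comm, sub_eq_iff_eq_add.2 (pp a).symm]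
  · rw [eN q hq, jσ, map_zero, map_zero, zero_add, sub_zero]
  · rw [eN q hq] at hν
    have k1 := congrArg j hν
    rw [map_add, map_sub, ji, ji, sub_self, add_zero, map_zero] at k1
    rw [k1, map_zero, zero_add, sub_eq_zero] at hν
    have k2 := hC _ (mK q hq) _ (mK q' hq') (j ν) fun a ha => by
      rw [← (hP _ (mK q hq)).2 a ha, ← hs, k1, inner_zero_left]
    have k3 : ‖p' q' - p' q‖ ≤ ‖γ q' - γ q‖ := by
      rw [← jγ, ← jγ, ← map_sub]
      exact adj_le ni _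
    have k4 : ⟪ν, γ q' - γ q⟫ = ⟪j ν, p' q' - p' q⟫ := by
      conv_lhs => rw [hν]
      rw [sj, map_sub, jγ, jγ]
    have k5 : ‖j ν‖ ≤ ‖ν‖ := adj_le ni _
    rw [k4]
    refine k2.trans ?_
    gcongr
    linarith
  · beta_reduce
    rw [jγ, (hΦ l).2.2 _ (mK q hq).1, smul_zero]
  · have k1 := (hP _ (mK q hq)).2 _ (hT _ (mK q hq) (p' a) fun l => by
      have k2 : (fun z => χ z • Φ l (j z)) =ᶠ[𝓝 (γ q)] fun z => Φ l (j z) :=
        (χ1 q hq).mono fun z hz => by simp only [hz, one_smul]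
      have k3 : fderiv ℝ (fun z => Φ l (j z)) (γ q) = _ :=
        (((hΦ l).1.differentiable one_ne_zero (j (γ q))).hasFDerivAt.comp _ j.hasFDerivAt).fderiv
      have k4 := ha l
      rwa [k2.fderiv_eq, k3, ContinuousLinearMap.comp_apply, jτ, jγ] at k4)
    conv_lhs => rw [← pp a, map_add, Pp q hq, k1, pp]

end Pool.Agent.Lib.MP_a785f2_an.UN
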