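import Pool.Agent.Lib.MP_a785f2_an.OM.Lift
import Pool.Agent.Lib.MP_a785f2_an.OM.Form

/-! The lifted equation for an isometric immersion at bounded distance from a linear map. -/

open MeasureTheory Metric Set Filter Topology
open scoped ContDiff RealInnerProductSpace ENNReal

namespace Pool.Agent.Lib.MP_a785f2_an.UN

open HS NH OM

variable {n m M : ℕ}

/-- An isometric immersion `γ` with derivatives `τ` and `σ`, close to a linear map. -/
structure Imm (γ : V m → V M) (τ : V m → V m →L[ℝ] V M) (σ : V m → V m →L[ℝ] V m →L[ℝ] V M)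
    (B : ℝ) : Prop where
  B1 : 1 ≤ B
  z : γ 0 = 0
  d1 : ∀ q, HasFDerivAt γ (τ q) q
  d2 : ∀ q, HasFDerivAt τ (σ q) q
  bγ : ∃ l : V m →L[ℝ] V M, ∀ q, ‖γ q - l q‖ ≤ B
  iso : ∀ q e, ‖τ q e‖ = ‖e‖
  bσ : ∀ q, ‖σ q‖ ≤ B
  lσ : ∀ q q', ‖σ q - σ q'‖ ≤ B * ‖q - q'‖
  nor : ∀ q a b c, ⟪σ q a b, τ q c⟫ = 0

variable {γ : V m → V M} {τ : V m → V m →L[ℝ] V M}
  {σ : V m → V m →L[ℝ] V m →L[ℝ] V M} {B L : ℝ} {T : V m → Bi m}

theorem Imm.cτ (t : Imm γ τ σ B) : Continuous τ :=
  continuous_iff_continuousAt.2 fun q => (t.d2 q).continuousAt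

theorem Imm.cσ (t : Imm γ τ σ B) : Continuous σ := by
  refine continuous_iff_continuousAt.2 fun q => (tendsto_iff_norm_sub_tendsto_zero
    (E := V m →L[ℝ] V m →L[ℝ] V M) (f := σ) (a := 𝓝 q) (b := σ q)).2 ?_
  have h : Tendsto (fun q' => B * ‖q' - q‖) (𝓝 q) (𝓝 (B * ‖q - q‖)) :=
    Continuous.tendsto (by fun_prop) q
  rw [sub_self, norm_zero, mul_zero] at h
  exact squeeze_zero (fun q' => (σ q' - σ q).opNorm_nonneg) (fun q' => t.lσ q' q) h

theorem Imm.nτ (t : Imm γ τ σ B) (q : V m) : ‖τ q‖ ≤ 1 :=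
  ContinuousLinearMap.opNorm_le_bound _ zero_le_one fun e => by rw [t.iso, one_mul]

theorem Imm.nγ (t : Imm γ τ σ B) (q : V m) : ‖γ q‖ ≤ ‖q‖ := by
  have h := convex_univ.norm_image_sub_le_of_norm_hasFDerivWithin_le (f := γ) (f' := τ) (C := 1)
    (fun x _ => (t.d1 x).hasFDerivWithinAt) (fun x _ => t.nτ x) (mem_univ 0) (mem_univ q)
  simpa [t.z] using h

theorem Imm.fro_comp (t : Imm γ τ σ B) (q : V m) (A : D n →L[ℝ] V m) :
    fro ((τ q).comp A) = fro A := by
  simp only [fro, col, ContinuousLinearMap.comp_apply, t.iso]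

/-- The lifted equation against a scalar function times a vector. -/
theorem Imm.test (t : Imm γ τ σ B) (hn : 2 ≤ n) {O : Set (D n)} {u : D n → V m}
    {A : D n → D n →L[ℝ] V m} {F : D n → V m} (S : GSol O u A F) {x0 : D n} {R : ℝ}
    (hK : closedBall x0 R ⊆ O) (e : V M) {g : D n → ℝ} (g1 : ContDiff ℝ ∞ g)
    (g2 : HasCompactSupport g) (g3 : tsupport g ⊆ closedBall x0 R) :
    ∫ x, (pr ((τ (u x)).comp (A x)) ((fderiv ℝ g x).smulRight e) -
      ⟪τ (u x) (F x) - quadT (σ (u x)) (A x), g x • e⟫) = 0 := by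
  obtain ⟨L, hL⟩ := exists_adj (m := m) e
  have d : ∀ q, HasFDerivAt (fun q => L (τ q)) (L.comp (σ q)) q := fun q =>
    L.hasFDerivAt.comp q (t.d2 q)
  have B1 := t.B1
  rw [← LY.test_comp hn S (Φ := fun q => L (τ q)) (B := ‖L‖ * B)
    (contDiff_one_iff_hasFDerivAt.2 ⟨_, continuous_const.clm_comp t.cσ, d⟩)
    (fun q => (L.le_opNorm _).trans (by gcongr; exact (t.nτ q).trans B1))
    (fun q => by
      rw [(d q).fderiv]
      exact (L.opNorm_comp_le _).trans (by gcongr; exact t.bσ q)) hK g1 g2 g3]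
  refine integral_congr_ae (ae_of_all _ fun x => ?_)
  simp only [(d _).fderiv, pr, t.fro_comp, quadT, col, ContinuousLinearMap.comp_apply,
    ContinuousLinearMap.smulRight_apply, inner_smul_right, hL, inner_sub_left, inner_smul_left,
    sum_inner, conj_trivial]
  ring

theorem Imm.lift (t : Imm γ τ σ B) (hn : 2 ≤ n) {O : Set (D n)} {u : D n → V m}
    {A : D n → D n →L[ℝ] V m} {F : D n → V m} (S : GSol O u A F) {x0 : D n} {R : ℝ}
    (hK : closedBall x0 R ⊆ O) :
    GSol (ball x0 R) (fun x => γ (u x)) (fun x => (τ (u x)).comp (A x))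
      fun x => τ (u x) (F x) - quadT (σ (u x)) (A x) := by
  have B1 := t.B1
  have h1 : (1 : ℝ≥0∞) ≤ n := by exact_mod_cast (by omega : 1 ≤ n)
  have sγ : ContDiff ℝ 1 γ := contDiff_one_iff_hasFDerivAt.2 ⟨_, t.cτ, t.d1⟩
  have mτ : StronglyMeasurable fun x => τ (u x) := t.cτ.comp_stronglyMeasurable S.mu
  have mu : StronglyMeasurable fun x => γ (u x) := sγ.continuous.comp_stronglyMeasurable S.mu
  have mG : StronglyMeasurable fun x => (τ (u x)).comp (A x) := by
    have c : Continuous fun p : (V m →L[ℝ] V M) × (D n →L[ℝ] V m) => p.1.comp p.2 :=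
      continuous_fst.clm_comp continuous_snd
    have h := c.comp_stronglyMeasurable (mτ.prodMk S.mG)
    exact h
  have mF : StronglyMeasurable fun x => τ (u x) (F x) - quadT (σ (u x)) (A x) := by
    have c : Continuous fun p : (V m →L[ℝ] V M) × V m => p.1 p.2 :=
      continuous_fst.clm_apply continuous_snd
    have h := c.comp_stronglyMeasurable (mτ.prodMk S.mF)
    have h' := continuous_quadT.comp_stronglyMeasurable
      ((t.cσ.comp_stronglyMeasurable S.mu).prodMk S.mG)
    exact h.sub h'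
  have lG : MemLp (fun x => (τ (u x)).comp (A x)) n volume :=
    S.lG.of_le mG.aestronglyMeasurable (ae_of_all _ fun x =>
      (ContinuousLinearMap.opNorm_comp_le _ _).trans
        (mul_le_of_le_one_left (norm_nonneg _) (t.nτ _)))
  have lF : Integrable fun x => τ (u x) (F x) - quadT (σ (u x)) (A x) := by
    refine (S.lF.norm.add ((S.ifro hn).const_mul (n * B))).mono' mF.aestronglyMeasurable
      (ae_of_all _ fun x => (norm_sub_le _ _).trans (add_le_add (t.iso _ _).le
        ((quadT_le hn _ _).trans ?_)))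
    exact mul_le_mul_of_nonneg_right (mul_le_mul_of_nonneg_left (t.bσ _) (Nat.cast_nonneg _))
      (pow_nonneg (fro_nonneg _) _)
  refine ⟨isOpen_ball, mu, mG, mF, S.lu.of_le mu.aestronglyMeasurable
    (ae_of_all _ fun x => t.nγ _), lG, lF, fun φ f1 f2 f3 v => ?_, fun φ f1 f2 f3 => ?_⟩
  · obtain ⟨w, hw⟩ := S.apx hn hK
    obtain ⟨l, hl⟩ := t.bγ
    have d : ∀ q, HasFDerivAt (fun q => γ q - l q) (τ q - l) q := fun q =>
      (t.d1 q).sub l.hasFDerivAt
    have h := chain_weak hn (isCompact_closedBall x0 R) S.mG (S.lG.locallyIntegrable h1) hw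
      (Φ := fun q => γ q - l q) (sγ.sub l.contDiff) (B := B + ‖l‖)
      (fun q => (hl q).trans (le_add_of_nonneg_right (norm_nonneg _)))
      (fun q => by
        rw [(d q).fderiv]
        exact (norm_sub_le _ _).trans (add_le_add ((t.nτ q).trans B1) le_rfl))
      (f1.of_le (by simp)) (f3.trans ball_subset_closedBall) v
    have cd : Continuous fun x => fderiv ℝ φ x v :=
      (f1.continuous_fderiv (by simp)).clm_apply continuous_const
    have sd : HasCompactSupport fun x => fderiv ℝ φ x v := f2.fderiv_apply (𝕜 := ℝ) v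
    have j1 : Integrable fun x => fderiv ℝ φ x v • u x :=
      (S.lu.locallyIntegrable h1).integrable_smul_left_of_hasCompactSupport cd sd
    have j2 : Integrable fun x => fderiv ℝ φ x v • γ (u x) :=
      ((S.lu.of_le mu.aestronglyMeasurable (ae_of_all _ fun x => t.nγ _)).locallyIntegrable
        h1).integrable_smul_left_of_hasCompactSupport cd sd
    have j3 : Integrable fun x => φ x • A x v :=
      ((S.lG.locallyIntegrable h1).integrable_smul_left_of_hasCompactSupport f1.continuous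
        f2).apply_continuousLinearMap v
    have j4 : Integrable fun x => φ x • τ (u x) (A x v) :=
      ((lG.locallyIntegrable h1).integrable_smul_left_of_hasCompactSupport f1.continuous
        f2).apply_continuousLinearMap v
    have k := congrArg l (S.wk φ f1 f2 ((f3.trans ball_subset_closedBall).trans hK) v)
    rw [map_neg, ← l.integral_comp_comm j1, ← l.integral_comp_comm j3] at k
    simp only [(d _).fderiv, sub_apply, smul_sub, ← map_smul l] at h
    rw [integral_sub j4 (l.integrable_comp j3), integral_sub j2 (l.integrable_comp j1), k] at h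
    simp only [ContinuousLinearMap.comp_apply]
    rw [eq_neg_iff_add_eq_zero, ← sub_eq_zero.2 h]
    abel
  · let π : Fin M → V M →L[ℝ] ℝ := fun j => EuclideanSpace.proj j
    let g : Fin M → D n → ℝ := fun j => π j ∘ φ
    let e : Fin M → V M := fun j => EuclideanSpace.single j 1
    have g1 : ∀ j, ContDiff ℝ ∞ (g j) := fun j => (π j).contDiff.comp f1
    have g2 : ∀ j, HasCompactSupport (g j) := fun j => f2.comp_left (map_zero _)
    have g3 : ∀ j, tsupport (g j) ⊆ closedBall x0 R := fun j =>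
      ((tsupport_comp_subset (map_zero (π j)) φ).trans f3).trans ball_subset_closedBall
    have dg : ∀ j x, fderiv ℝ (g j) x = (π j).comp (fderiv ℝ φ x) := fun j x =>
      ((π j).hasFDerivAt.comp x (f1.differentiable (by simp) x).hasFDerivAt).fderiv
    have hs : ∀ a b : V M, ∑ j, b j * ⟪a, e j⟫ = ⟪a, b⟫ := fun a b => by
      simp [e, PiLp.inner_apply]
    have i1 : ∀ j, Integrable fun x => pr ((τ (u x)).comp (A x))
        ((fderiv ℝ (g j) x).smulRight (e j)) := fun j =>
      test_pr_int hn mG lG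
        (((ContinuousLinearMap.smulRightL ℝ (D n) (V M)).flip (e j)).continuous.comp
          ((g1 j).continuous_fderiv (by simp)))
        (((g2 j).fderiv ℝ).comp_left
          (g := (ContinuousLinearMap.smulRightL ℝ (D n) (V M)).flip (e j)) (map_zero _))
    have i2 : ∀ j, Integrable fun x => ⟪τ (u x) (F x) - quadT (σ (u x)) (A x), g j x • e j⟫ :=
      fun j => test_inner_int lF ((g1 j).continuous.smul continuous_const) (g2 j).smul_right
    calc _ = ∫ x, ∑ j, pr ((τ (u x)).comp (A x)) ((fderiv ℝ (g j) x).smulRight (e j)) := by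
          refine integral_congr_ae (ae_of_all _ fun x => ?_)
          simp only [pr, col, dg, ContinuousLinearMap.smulRight_apply, inner_smul_right,
            ContinuousLinearMap.comp_apply, ← Finset.mul_sum]
          rw [Finset.sum_comm]
          exact congrArg _ (Finset.sum_congr rfl fun α _ => (hs _ _).symm)
      _ = ∫ x, ∑ j, ⟪τ (u x) (F x) - quadT (σ (u x)) (A x), g j x • e j⟫ := by
          rw [integral_finsetSum _ fun j _ => i1 j, integral_finsetSum _ fun j _ => i2 j]
          refine Finset.sum_congr rfl fun j _ => ?_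
          rw [← sub_eq_zero, ← integral_sub (i1 j) (i2 j)]
          exact t.test hn S hK (e j) (g1 j) (g2 j) (g3 j)
      _ = _ := by
          refine integral_congr_ae (ae_of_all _ fun x => ?_)
          simp only [inner_smul_right]
          exact hs _ _

theorem Imm.form (t : Imm γ τ σ B) (a : Anti T L) : ∃ (T' : V m → Bi M) (L' : ℝ),
    Anti T' L' ∧ ∀ q b c, T' q (τ q b) (τ q c) = σ q b c - τ q (T q b c) := by
  have bτ : BL τ := ⟨B, t.B1, fun q =>
    (ContinuousLinearMap.opNorm_le_bound _ zero_le_one fun e => by rw [t.iso, one_mul]).trans t.B1,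
    fun q q' => convex_univ.norm_image_sub_le_of_norm_hasFDerivWithin_le
      (fun x _ => (t.d2 x).hasFDerivWithinAt) (fun x _ => t.bσ x) (mem_univ q') (mem_univ q)⟩
  have bσ : BL σ := ⟨B, t.B1, t.bσ, t.lσ⟩
  have bT : BL T := ⟨L, a.L1, a.bd, a.lip⟩
  have bs : BL fun q => adjR m M (τ q) :=
    BL.clm (X := V m →L[ℝ] V M) (Y := V M →L[ℝ] V m) (adjR m M) bτ
  have b1 := bσ.pb bs
  have b2 := BL.comp (X := V M) (Y := V M →L[ℝ] V M) (Z := V M →L[ℝ] V M)
    (BL.const (adjR M M)) b1
  have b3 := BL.comp (X := V M) (Y := V M →L[ℝ] V m) (Z := V M →L[ℝ] V M)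
    (BL.clm (X := V m →L[ℝ] V M) (Y := (V M →L[ℝ] V m) →L[ℝ] V M →L[ℝ] V M)
      (ContinuousLinearMap.compL ℝ (V M) (V m) (V M)) bτ) (bT.pb bs)
  obtain ⟨K, K1, k1, k2⟩ := (b1.sub b2).sub b3
  have ev : ∀ q e z, (pull (σ q) (adjR m M (τ q)) - (adjR M M).comp (pull (σ q) (adjR m M (τ q))) -
      (ContinuousLinearMap.compL ℝ (V M) (V m) (V M) (τ q)).comp
        (pull (T q) (adjR m M (τ q)))) e z =
      σ q (adjR m M (τ q) e) (adjR m M (τ q) z) - adjR M M (pull (σ q) (adjR m M (τ q)) e) z -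
        τ q (T q (adjR m M (τ q) e) (adjR m M (τ q) z)) := fun _ _ _ => rfl
  have inv : ∀ q b, adjR m M (τ q) (τ q b) = b := fun q b =>
    DFunLike.congr_fun (((τ q).norm_map_iff_adjoint_comp_self).1 (t.iso q)) b
  refine ⟨_, K, ⟨K1, k1, k2, fun q e z => ?_⟩, fun q b c => ?_⟩
  · rw [ev, inner_sub_left, inner_sub_left, adjR_inner, pull_apply, real_inner_comm, sub_self,
      real_inner_comm, ← adjR_inner, real_inner_comm, a.anti, sub_zero]
  · have e : adjR M M (pull (σ q) (adjR m M (τ q)) (τ q b)) (τ q c) = 0 := by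
      refine ext_inner_right ℝ fun v => ?_
      rw [adjR_inner, pull_apply, real_inner_comm, t.nor, inner_zero_left]
    rw [ev, e, inv, inv, sub_zero]

end Pool.Agent.Lib.MP_a785f2_an.UN
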