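import Pool.Agent.Lib.MP_a785f2_an.UN.Core
import Pool.Agent.Lib.MP_a785f2_an.OM.Top

/-! The statement in coordinates follows from the internal theorem. -/

open MeasureTheory Metric Set Filter Topology
open scoped ContDiff RealInnerProductSpace ENNReal

namespace Pool.Agent.Lib.MP_a785f2_an.UN

open HS NH OM

variable {n m : ℕ}

theorem quad_coord (w : Fin m → Fin m → Fin m → ℝ) (G : Fin m → Fin n → E n → ℝ) (x : E n)
    (i : Fin m) : ∑ j, ∑ α, (∑ k, w k i j * G k α x) * (gradNorm G x ^ (n - 2) * G j α x) =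
      quadT (bt w) (trM fun i α => G i α x) i := by
  have hfro : fro (trM fun i α => G i α x) = gradNorm G x := trM_fro _
  simp only [quadT, hfro, WithLp.ofLp_smul, WithLp.ofLp_sum, Pi.smul_apply, Finset.sum_apply,
    bt_apply, smul_eq_mul, Finset.mul_sum, trM_col]
  rw [Finset.sum_comm]
  refine Finset.sum_congr rfl fun α _ => Finset.sum_congr rfl fun j _ => ?_
  ring

theorem top (hn : 3 ≤ n) (N : Set (E m)) (hN : IsC2Submanifold N) (Z : Submodule ℝ (E m))
    (hZ : ∀ p ∈ N, ∀ v ∈ Z, p + v ∈ N) (hc : IsCompact (N ∩ Zᗮ))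
    (w : Fin m → Fin m → Fin m → E m → ℝ) (Λ : ℝ)
    (hb : ∀ k i j y, |w k i j y| ≤ Λ)
    (hl : ∀ k i j y y', |w k i j y - w k i j y'| ≤ Λ * ‖y - y'‖)
    (hs : ∀ k i j y, w k j i y = -w k i j y)
    (u : Fin m → E n → ℝ) (G : Fin m → Fin n → E n → ℝ) (F : Fin m → E n → ℝ) (hu : IsW1n u G)
    (hv : ∀ᵐ x ∂(ballMeasure n), pt u x ∈ N) (hF : ∀ i, Integrable (F i) (ballMeasure n))
    (ht : ∀ᵐ x ∂(ballMeasure n), ∀ τ ∈ tangentConeAt ℝ N (pt u x),
      |∑ i, (F i x - ∑ j, ∑ α, (∑ k, w k i j (pt u x) * G k α x) *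
        (gradNorm G x ^ (n - 2) * G j α x)) * τ i| ≤
      Λ * (∑ I : Fin n → Fin m, |(Matrix.of fun a α => G (I a) α x).det|) * ‖τ‖)
    (he : ∀ i φ, IsTest φ →
      ∫ x, ∑ α, gradNorm G x ^ (n - 2) * G i α x * pd α φ x ∂(ballMeasure n) =
        ∫ x, F i x * φ x ∂(ballMeasure n)) : HasContinuousRep u := by
  obtain ⟨c, c0, hc'⟩ := bt_le (m := m)
  have a0 := abs_nonneg Λ
  have a1 := le_abs_self Λ
  have a2 : 0 ≤ c * |Λ| := mul_nonneg c0 a0
  have T : Anti (fun y : V m => bt fun k i j => w k i j y) (1 + c * |Λ| + |Λ|) := by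
    refine ⟨by linarith, fun q => ?_, fun q q' => ?_, fun q => bt_anti fun l i j => hs l i j q⟩
    · linarith [hc' (fun k i j => w k i j q) |Λ| a0 fun l i j => (hb l i j q).trans a1]
    · rw [bt_sub]
      refine (hc' _ (|Λ| * ‖q - q'‖) (by positivity) fun l i j => (hl l i j q q').trans
        (mul_le_mul_of_nonneg_right a1 (norm_nonneg _))).trans ?_
      rw [← mul_assoc]
      exact mul_le_mul_of_nonneg_right (by linarith) (norm_nonneg _)
  refine transfer2 (by omega) (fun y A f => y ∈ N ∧ ∀ e ∈ tangentConeAt ℝ N y,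
      |⟪f - quadT (bt fun k i j => w k i j y) A, e⟫| ≤ (1 + c * |Λ| + |Λ|) * jac A * ‖e‖)
    (fun O u A F s h => core hn hN Z hZ hc T O u A F s h) u G F hu hF ?_ he
  filter_upwards [hv, ht] with x k1 k2
  refine ⟨k1, fun τ hτ => ?_⟩
  have e : ⟪(WithLp.toLp 2 fun i => F i x : V m) -
      quadT (bt fun k i j => w k i j (pt u x)) (trM fun i α => G i α x), τ⟫ =
      ∑ i, (F i x - ∑ j, ∑ α, (∑ k, w k i j (pt u x) * G k α x) *
        (gradNorm G x ^ (n - 2) * G j α x)) * τ i := by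
    rw [PiLp.inner_apply]
    refine Finset.sum_congr rfl fun i _ => ?_
    rw [quad_coord fun k i j => w k i j (pt u x)]
    simp [mul_comm]
  have j0 := jac_nonneg (trM fun i α => G i α x)
  have k3 := k2 τ hτ
  rw [← e, ← trM_jac fun i α => G i α x] at k3
  exact k3.trans (mul_le_mul_of_nonneg_right (mul_le_mul_of_nonneg_right (by linarith) j0)
    (norm_nonneg _))

/-- The whole space is a submanifold. -/
theorem univ_sub : IsC2Submanifold (univ : Set (E m)) := fun _ _ =>
  ⟨0, univ, fun _ => 0, isOpen_univ, mem_univ _, contDiffOn_const,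
    fun _ _ y => ⟨0, Subsingleton.elim _ _⟩, fun _ _ => by simp⟩

/-- The potential term of a bounded Lipschitz form is integrable. -/
theorem quad_int (hn : 2 ≤ n) {w : Fin m → Fin m → Fin m → E m → ℝ} {Λ : ℝ}
    (hb : ∀ k i j y, |w k i j y| ≤ Λ)
    (hl : ∀ k i j y y', |w k i j y - w k i j y'| ≤ Λ * ‖y - y'‖)
    {u : Fin m → E n → ℝ} {G : Fin m → Fin n → E n → ℝ} {h : Fin m → E n → ℝ} (hu : IsW1n u G)
    (hm : ∀ i, AEStronglyMeasurable (h i) (ballMeasure n))
    (hh : ∀ i, ∀ᵐ x ∂(ballMeasure n), |h i x| ≤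
      Λ * ∑ I : Fin n → Fin m, |(Matrix.of fun a α => G (I a) α x).det|) (i : Fin m) :
    Integrable (fun x => (∑ j, ∑ α, (∑ k, w k i j (pt u x) * G k α x) *
      (gradNorm G x ^ (n - 2) * G j α x)) + h i x) (ballMeasure n) := by
  obtain ⟨c, c0, hc⟩ := bt_le (m := m)
  have a0 : 0 ≤ Λ := (abs_nonneg _).trans (hb i i i 0)
  have hfro : ∀ x, fro (trM fun i α => G i α x) = gradNorm G x := fun x => trM_fro _
  have lG : MemLp (fun x => trM fun i α => G i α x) n (ballMeasure n) := trM_memLp hu.2.1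
  have mu : AEStronglyMeasurable (pt u) (ballMeasure n) := (MemLp.of_eval_piLp hu.1).1
  have mfro : AEStronglyMeasurable (fun x => fro (trM fun i α => G i α x)) (ballMeasure n) :=
    continuous_fro.comp_aestronglyMeasurable lG.1
  have ifro : Integrable (fun x => fro (trM fun i α => G i α x) ^ n) (ballMeasure n) := by
    refine ((lG.integrable_norm_pow (by omega)).const_mul ((n : ℝ) ^ n)).mono' (mfro.pow n)
      (ae_of_all _ fun x => ?_)
    rw [Real.norm_of_nonneg (pow_nonneg (fro_nonneg _) _), ← mul_pow]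
    exact pow_le_pow_left₀ (fro_nonneg _) (fro_le_norm _) n
  refine Integrable.add ?_ ?_
  · refine (ifro.const_mul (n * (c * Λ))).mono' ?_ (ae_of_all _ fun x => ?_)
    · refine Finset.aestronglyMeasurable_fun_sum _ fun j _ =>
        Finset.aestronglyMeasurable_fun_sum _ fun α _ => AEStronglyMeasurable.mul ?_
          (AEStronglyMeasurable.mul ?_ (hu.2.1 j α).1)
      · refine Finset.aestronglyMeasurable_fun_sum _ fun l _ => AEStronglyMeasurable.mul
          (Continuous.comp_aestronglyMeasurable ?_ mu) (hu.2.1 l α).1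
        refine (LipschitzWith.of_dist_le_mul (K := ⟨Λ, a0⟩) fun y y' => ?_).continuous
        rw [dist_eq_norm, dist_eq_norm]
        exact hl l i j y y'
      · simp only [← hfro]
        exact mfro.pow _
    · rw [quad_coord fun k i j => w k i j (pt u x)]
      exact (PiLp.norm_apply_le _ i).trans
        (top_quad hn (hc _ Λ a0 fun l i j => hb l i j _) _)
  · refine (ifro.const_mul (Λ * ((m : ℝ) ^ n * n.factorial))).mono' (hm i)
      ((hh i).mono fun x hx => hx.trans ?_)
    rw [← trM_jac fun i α => G i α x, mul_assoc]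
    exact mul_le_mul_of_nonneg_left (jac_le _) a0

end Pool.Agent.Lib.MP_a785f2_an.UN
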